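import Pool.Agent.MP_2a44fd_gt.CB.Spec

/-! Calculus for a norm that is `C²` away from the origin, and integration by parts. -/

set_option autoImplicit false

open MeasureTheory Real Set Filter Topology
open scoped RealInnerProductSpace

namespace Pool.Agent.MP_2a44fd_gt.CB

open Pool.Agent.MP_2a44fd_gt.hd

variable {n : ℕ} {p : Eu n → ℝ}

structure Sm (p : Eu n → ℝ) : Prop where
  nrm : Nrm p
  c2 : ContDiffOn ℝ 2 p {0}ᶜ

noncomputable def q (p : Eu n → ℝ) (v x : Eu n) : ℝ := fderiv ℝ p x v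

noncomputable def r (p : Eu n → ℝ) (v x : Eu n) : ℝ := fderiv ℝ (q p v) x v

noncomputable def gL (p : Eu n → ℝ) (x : Eu n) : Eu n →L[ℝ] ℝ := p x • fderiv ℝ p x

theorem gL_apply (x v : Eu n) : gL p x v = p x * q p v x := rfl

theorem Sm.cda (H : Sm p) {x : Eu n} (hx : x ≠ 0) : ContDiffAt ℝ 2 p x :=
  H.c2.contDiffAt (isOpen_compl_singleton.mem_nhds hx)

theorem Sm.hasF (H : Sm p) {x : Eu n} (hx : x ≠ 0) : HasFDerivAt p (fderiv ℝ p x) x :=
  ((H.cda hx).differentiableAt (by norm_num)).hasFDerivAt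

theorem Sm.cdq (H : Sm p) (v : Eu n) {x : Eu n} (hx : x ≠ 0) : ContDiffAt ℝ 1 (q p v) x :=
  ((H.cda hx).fderiv_right (m := 1) (by norm_num)).clm_apply contDiffAt_const

theorem Sm.hasq (H : Sm p) (v : Eu n) {x : Eu n} (hx : x ≠ 0) :
    HasFDerivAt (q p v) (fderiv ℝ (q p v) x) x :=
  ((H.cdq v hx).differentiableAt (by norm_num)).hasFDerivAt

theorem Sm.bd (H : Sm p) : ∃ C : ℝ, 0 < C ∧ (∀ x, p x ≤ C * ‖x‖) ∧ ∀ x, ‖fderiv ℝ p x‖ ≤ C := by
  obtain ⟨C, hC, h⟩ := H.nrm.upper
  refine ⟨C, hC, h, fun x => ?_⟩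
  have : LipschitzWith ⟨C, hC.le⟩ p := LipschitzWith.of_le_add_mul _ fun x y => by
    have := H.nrm.add y (x - y)
    rw [add_sub_cancel] at this
    rw [dist_eq_norm]
    exact this.trans (add_le_add le_rfl (h _))
  exact norm_fderiv_le_of_lipschitz ℝ this

theorem Sm.line (H : Sm p) {x : Eu n} (hx : x ≠ 0) (z : Eu n) :
    HasDerivAt (fun t : ℝ => p (x + t • z)) (q p z x) 0 := (H.hasF hx).hasLineDerivAt z

theorem Sm.q_le (H : Sm p) {x : Eu n} (hx : x ≠ 0) (z : Eu n) : q p z x ≤ p z := by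
  refine le_of_tendsto (H.line hx z).tendsto_slope_zero_right
    (eventually_mem_nhdsWithin.mono fun t ht => ?_)
  have ht' : 0 < t := ht
  have := H.nrm.add x (t • z)
  rw [H.nrm.smul_nonneg ht'.le] at this
  simp only [zero_add, zero_smul, add_zero, smul_eq_mul]
  rw [inv_mul_le_iff₀ ht']
  linarith

theorem Sm.euler (H : Sm p) {x : Eu n} (hx : x ≠ 0) : q p x x = p x := by
  have h1 : HasDerivAt (fun t : ℝ => (1 + t) * p x) (p x) 0 := by
    simpa using ((hasDerivAt_id (0 : ℝ)).const_add 1).mul_const (p x)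
  refine (H.line hx x).unique (h1.congr_of_eventuallyEq ?_)
  filter_upwards [Ioi_mem_nhds (show (-1 : ℝ) < 0 by norm_num)] with t ht
  rw [← H.nrm.smul_nonneg (by linarith [mem_Ioi.1 ht]), add_smul, one_smul]

theorem Sm.fd_smul (H : Sm p) (c : ℝ) (x : Eu n) :
    c • fderiv ℝ p (c • x) = |c| • fderiv ℝ p x := by
  rw [← fderiv_comp_smul, show (fun x => p (c • x)) = |c| • p from funext fun y => by
    rw [H.nrm.smul]; rfl, fderiv_const_smul_field]
  rfl

theorem Sm.q_smul (H : Sm p) {c : ℝ} (hc : 0 < c) (v x : Eu n) : q p v (c • x) = q p v x := by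
  have := H.fd_smul c x
  rw [abs_of_pos hc] at this
  unfold q
  rw [smul_right_injective _ hc.ne' this]

theorem Sm.gL_smul (H : Sm p) (c : ℝ) (x : Eu n) : gL p (c • x) = c • gL p x := by
  rcases eq_or_ne c 0 with rfl | hc
  · simp [gL, H.nrm.zero]
  refine smul_right_injective _ hc ?_
  simp only [gL]
  rw [smul_comm, H.fd_smul c, H.nrm.smul, smul_smul, smul_smul, smul_smul]
  congr 1
  rw [mul_right_comm, abs_mul_abs_self]

theorem Sm.gL_self (H : Sm p) (x : Eu n) : gL p x x = p x ^ 2 := by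
  rcases eq_or_ne x 0 with rfl | hx
  · simp [H.nrm.zero]
  · rw [gL_apply, H.euler hx, sq]

theorem Sm.r_smul (H : Sm p) {c : ℝ} (hc : 0 < c) (v x : Eu n) :
    c * r p v (c • x) = r p v x := by
  have : fderiv ℝ (fun y => q p v (c • y)) x = c • fderiv ℝ (q p v) (c • x) :=
    fderiv_comp_smul c
  simp only [H.q_smul hc] at this
  unfold r
  rw [show q p v = fun y => q p v y from rfl] at this ⊢
  rw [this]
  rfl

theorem Sm.r_bd (H : Sm p) (v : Eu n) : ∃ C : ℝ, ∀ x, |p x * r p v x| ≤ C := by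
  have hc : ContinuousOn (fun x => p x * r p v x) (Metric.sphere 0 1) := fun x hx => by
    have h0 : x ≠ 0 := by rintro rfl; simp at hx
    exact (H.nrm.cont.continuousAt.mul ((((H.cdq v h0).fderiv_right (m := 0)
      (by norm_num)).clm_apply contDiffAt_const).continuousAt)).continuousWithinAt
  obtain ⟨C, hC⟩ := (isCompact_sphere (0 : Eu n) 1).exists_bound_of_continuousOn hc
  refine ⟨|C|, fun x => ?_⟩
  rcases eq_or_ne x 0 with rfl | hx
  · simp [H.nrm.zero]
  have h0 : 0 < ‖x‖⁻¹ := inv_pos.2 (norm_pos_iff.2 hx)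
  have := hC (‖x‖⁻¹ • x) (by simp [norm_smul, norm_ne_zero_iff.2 hx])
  rw [H.nrm.smul_nonneg h0.le, mul_comm ‖x‖⁻¹, mul_assoc, H.r_smul h0] at this
  exact this.trans (le_abs_self C)

theorem meas_q (v : Eu n) : Measurable (q p v) := measurable_fderiv_apply_const ℝ p v

theorem meas_r (v : Eu n) : Measurable (r p v) := measurable_fderiv_apply_const ℝ _ v

theorem Sm.gL_cont (H : Sm p) : Continuous (gL p) := by
  obtain ⟨C, hC, h1, h2⟩ := H.bd
  refine continuous_iff_continuousAt.2 fun x => ?_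
  rcases eq_or_ne x 0 with rfl | hx
  · have : gL p 0 = 0 := by simp [gL, H.nrm.zero]
    rw [ContinuousAt, this]
    refine squeeze_zero_norm (a := fun x => p x * C) (fun y => ?_) ?_
    · rw [gL, norm_smul, Real.norm_of_nonneg (H.nrm.nonneg y)]
      exact mul_le_mul_of_nonneg_left (h2 y) (H.nrm.nonneg y)
    · simpa [H.nrm.zero] using (H.nrm.cont.tendsto 0).mul_const C
  · exact H.nrm.cont.continuousAt.smul
      ((H.cda hx).fderiv_right (m := 1) (by norm_num)).continuousAt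

theorem Sm.hasG (H : Sm p) (x v : Eu n) :
    HasLineDerivAt ℝ (fun x => p x ^ 2 / 2) (gL p x v) x v := by
  rcases eq_or_ne x 0 with rfl | hx
  · have : HasDerivAt (fun t : ℝ => t ^ 2 * (p v ^ 2 / 2)) 0 0 := by
      simpa using (hasDerivAt_pow 2 (0 : ℝ)).mul_const (p v ^ 2 / 2)
    refine (this.congr_deriv (by simp [gL, H.nrm.zero])).congr_of_eventuallyEq
      (Eventually.of_forall fun t => ?_)
    simp only [zero_add, H.nrm.smul, mul_pow, sq_abs]; ring
  · exact (((H.line hx v).pow 2).div_const 2).congr_deriv (by simp [gL_apply]; ring)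

/-- Integration by parts against the measure `mu p`. -/
theorem Sm.stein (H : Sm p) (hn : 0 < n) {f f' : Eu n → ℝ} (v : Eu n)
    (h1 : ∀ x, x ≠ 0 → HasLineDerivAt ℝ f (f' x) x v) (h0 : ∃ d, HasLineDerivAt ℝ f d 0 v)
    (i0 : Integrable f (mu p)) (i1 : Integrable f' (mu p))
    (i2 : Integrable (fun x => f x * gL p x v) (mu p)) :
    ∫ x, f' x ∂mu p = ∫ x, f x * gL p x v ∂mu p := by
  classical
  obtain ⟨d, hd⟩ := h0
  have : Nonempty (Fin n) := ⟨⟨0, hn⟩⟩
  have ae : ∀ᵐ x : Eu n, Function.update f' 0 d x = f' x := by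
    filter_upwards [compl_mem_ae_iff.2 (measure_singleton (0 : Eu n))] with x hx
    exact Function.update_of_ne hx _ _
  rw [H.nrm.integrable_mu] at i0 i1 i2
  have e1 : (fun x => (ContinuousLinearMap.mul ℝ ℝ) (exp (-(p x ^ 2 / 2)) / Zc p)
      (Function.update f' 0 d x)) =ᵐ[volume] fun x => exp (-(p x ^ 2 / 2)) / Zc p * f' x := by
    filter_upwards [ae] with x hx
    rw [hx]; rfl
  have e2 : (fun x => (ContinuousLinearMap.mul ℝ ℝ)
      (exp (-(p x ^ 2 / 2)) * -gL p x v / Zc p) (f x)) =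
      fun x => -(exp (-(p x ^ 2 / 2)) / Zc p * (f x * gL p x v)) := by
    funext x
    simp only [ContinuousLinearMap.mul_apply']
    ring
  have := integral_bilinear_hasLineDerivAt_right_eq_neg_left_of_integrable (μ := volume)
    (f := fun x => exp (-(p x ^ 2 / 2)) / Zc p)
    (f' := fun x => exp (-(p x ^ 2 / 2)) * -gL p x v / Zc p) (g := f)
    (g' := Function.update f' 0 d) (v := v) (B := ContinuousLinearMap.mul ℝ ℝ)
    (by rw [e2]; exact i2.neg) (i1.congr e1.symm) i0
    (fun x _ => (HasDerivAt.neg (H.hasG x v)).exp.div_const (Zc p) |>.congr_deriv (by simp))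
    (fun x _ => by
      rcases eq_or_ne x 0 with rfl | hx
      · simpa using hd
      · rw [Function.update_of_ne hx]; exact h1 x hx)
  rw [integral_congr_ae e1, e2, integral_neg, neg_neg] at this
  rw [H.nrm.integral_mu, H.nrm.integral_mu, this]

end Pool.Agent.MP_2a44fd_gt.CB
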