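import Pool.Agent.MP_2a44fd_gt.CB.Spec

/-! The function `h` of a Busemann-Petty pair is the dual norm of `p`. -/

set_option autoImplicit false

open MeasureTheory Real Set Filter Topology
open scoped RealInnerProductSpace

namespace Pool.Agent.MP_2a44fd_gt.CB

open Pool.Agent.MP_2a44fd_gt.hd

namespace Dual

variable {n : ℕ} {p h : Eu n → ℝ} {b : ℝ}

/-- `h` is subadditive, as a pointwise limit of convex functions that is homogeneous. -/
theorem sub (H : BP p h b) (x y : Eu n) : h (x + y) ≤ h x + h y := by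
  have h0 : h 0 = 0 := by simpa using H.hsmul 0 0
  have t : ∀ ξ, Tendsto (fun δ => (A0 p δ ξ)⁻¹) (𝓝[>] 0) (𝓝 (h ξ / b)) := fun ξ => by
    rcases eq_or_ne ξ 0 with rfl | hξ
    · have : Continuous fun δ : ℝ => √(2 * π) * δ := by fun_prop
      simpa [H.nrm.A0_zero, h0, mul_comm] using (this.tendsto 0).mono_left nhdsWithin_le_nhds
    · simpa using (H.lim ξ hξ).inv₀ (div_pos H.bpos (H.hpos ξ hξ)).ne'
  have c := le_of_tendsto_of_tendsto (t ((1 / 2 : ℝ) • x + (1 / 2 : ℝ) • y))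
    (((t x).const_smul (1 / 2 : ℝ)).add ((t y).const_smul (1 / 2 : ℝ)))
    (eventually_mem_nhdsWithin.mono fun δ hδ => (ball qc pl n p δ H.nrm hδ).2 (mem_univ x)
      (mem_univ y) (by norm_num) (by norm_num) (by norm_num))
  rw [← smul_add, H.hsmul, abs_of_pos (by norm_num), smul_eq_mul, smul_eq_mul,
    ← mul_add, ← add_div, mul_div_assoc] at c
  exact (div_le_div_iff_of_pos_right H.bpos).1 (by linarith)

/-- A supporting vector for `h` at `ξ`. -/
theorem sup (H : BP p h b) {ξ : Eu n} (hξ : ξ ≠ 0) :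
    ∃ y : Eu n, ⟪y, ξ⟫ = h ξ ∧ ∀ ζ, ⟪y, ζ⟫ ≤ h ζ := by
  obtain ⟨g, g1, g2⟩ := exists_extension_of_le_sublinear
    (LinearPMap.mkSpanSingleton ξ (h ξ) hξ) h
    (fun c hc x => by rw [H.hsmul, abs_of_pos hc]) (sub H) (by
      rintro ⟨z, hz⟩
      obtain ⟨c, rfl⟩ := Submodule.mem_span_singleton.1 hz
      refine (LinearPMap.mkSpanSingleton'_apply ξ (h ξ) _ c hz).trans_le ?_
      simp only [H.hsmul, smul_eq_mul, RingHom.id_apply]
      exact mul_le_mul_of_nonneg_right (le_abs_self c) (H.hpos ξ hξ).le)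
  refine ⟨(InnerProductSpace.toDual ℝ (Eu n)).symm (LinearMap.toContinuousLinearMap g), ?_,
    fun ζ => by simpa using g2 ζ⟩
  simpa using (g1 ⟨ξ, Submodule.mem_span_singleton_self ξ⟩).trans
    (LinearPMap.mkSpanSingleton_apply ℝ ℝ hξ (h ξ))

end Dual

theorem dual : DUAL := by
  intro n p h b H x ξ hx h1 h2
  obtain ⟨c, hc, l⟩ := H.nrm.low
  have px : 0 < p x := (mul_pos hc (norm_pos_iff.2 hx)).trans_le (l x)
  have hξ : ξ ≠ 0 := by
    rintro rfl
    simp [← h2] at px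
  obtain ⟨y, y1, y2⟩ := Dual.sup H hξ
  refine le_antisymm (y1 ▸ (h1 y).trans (H.d2 y y2)) ?_
  exact (le_mul_iff_one_le_right px).1 (h2 ▸ H.d1 x ξ)

end Pool.Agent.MP_2a44fd_gt.CB
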