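import Pool.Agent.MP_2a44fd_gt.CB.Spec

/-! A smooth norm with symmetric Birkhoff orthogonality in dimension at least three. -/

set_option autoImplicit false

open MeasureTheory Real Set Filter Topology
open scoped RealInnerProductSpace

namespace Pool.Agent.MP_2a44fd_gt.CB

open Pool.Agent.MP_2a44fd_gt.hd

namespace Geo

section

variable {E : Type} [NormedAddCommGroup E] [NormedSpace ℝ E] {G : E → ℝ} {g : E → E →L[ℝ] ℝ}
  {B : E → E →L[ℝ] E →L[ℝ] ℝ}

/-- A square of a norm with its first two derivatives. -/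
structure Dt (G : E → ℝ) (g : E → E →L[ℝ] ℝ) (B : E → E →L[ℝ] E →L[ℝ] ℝ) : Prop where
  d1 : ∀ x, x ≠ 0 → HasFDerivAt G (g x) x
  d2 : ∀ x, x ≠ 0 → HasFDerivAt g (B x) x
  sy : ∀ x, x ≠ 0 → ∀ v w, B x v w = B x w v
  hom : ∀ (c : ℝ) x, G (c • x) = c ^ 2 * G x
  pos : ∀ x, x ≠ 0 → 0 < G x
  bo : ∀ x y, x ≠ 0 → y ≠ 0 → g x y = 0 → g y x = 0

theorem line (x w : E) (t : ℝ) : HasDerivAt (fun s : ℝ => x + s • w) w t := by
  simpa using ((hasDerivAt_id t).smul_const w).const_add x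

theorem Dt.euler (h : Dt G g B) {x : E} (hx : x ≠ 0) : g x x = 2 * G x := by
  have a := (h.d1 x hx).comp_hasDerivAt_of_eq 1 (line 0 x 1) (by simp)
  have b : HasDerivAt (G ∘ fun s : ℝ => 0 + s • x) (2 * G x) 1 := by
    have c : (G ∘ fun s : ℝ => 0 + s • x) = fun s => s ^ 2 * G x :=
      funext fun s => by simp [h.hom]
    rw [c]
    simpa using (hasDerivAt_pow 2 (1 : ℝ)).mul_const (G x)
  exact a.unique b

theorem Dt.lam (h : Dt G g B) {x y : E} (hx : x ≠ 0) (hy : y ≠ 0) (e : g x y = 0) :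
    ∃ l : ℝ, ∀ w, g y w = l * B x w y := by
  have n0 : g x x ≠ 0 := by
    rw [h.euler hx]
    exact (mul_pos two_pos (h.pos x hx)).ne'
  refine ⟨B y x x / g x x, fun w => ?_⟩
  have l := line x w 0
  have h1 : HasDerivAt (fun t : ℝ => g (x + t • w)) (B x w) 0 :=
    (h.d2 x hx).comp_hasDerivAt_of_eq 0 l (by simp)
  have h2 : ∀ v, HasDerivAt (fun t : ℝ => g (x + t • w) v) (B x w v) 0 := fun v => by
    simpa using h1.clm_apply (hasDerivAt_const 0 v)
  have h3 : HasDerivAt (fun t : ℝ => g (x + t • w) y / g (x + t • w) x) (B x w y / g x x) 0 := by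
    refine ((h2 y).fun_div (h2 x) (by simpa using n0)).congr_deriv ?_
    simp only [zero_smul, add_zero, e]
    field_simp
    ring
  have h4 := (h3.smul_const x).const_sub y
  have h5 := ((h.d2 y hy).comp_hasDerivAt_of_eq 0 h4 (by simp [e])).clm_apply l
  have h6 : ∀ᶠ t in 𝓝 (0 : ℝ),
      g (y - (g (x + t • w) y / g (x + t • w) x) • x) (x + t • w) = 0 := by
    filter_upwards [l.continuousAt.eventually_ne (y := 0) (by simpa using hx),
      h4.continuousAt.eventually_ne (y := 0) (by simpa [e] using hy),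
      (h2 x).continuousAt.eventually_ne (y := 0) (by simpa using n0)] with t t1 t2 t3
    refine h.bo _ _ t1 t2 ?_
    rw [map_sub, map_smul, smul_eq_mul, div_mul_cancel₀ _ t3, sub_self]
  have h7 := h5.unique ((hasDerivAt_const (0 : ℝ) (0 : ℝ)).congr_of_eventuallyEq h6)
  simp only [Function.comp, zero_smul, add_zero, e, zero_div, sub_zero, map_neg, map_smul,
    neg_apply, smul_apply, smul_eq_mul] at h7
  rw [div_mul_eq_mul_div, mul_comm, ← div_mul_eq_mul_div]
  linarith

theorem Dt.rel (h : Dt G g B) {x y : E} (hx : x ≠ 0) (hy : y ≠ 0) (e : g x y = 0) :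
    B x y y ≠ 0 ∧ ∀ w, g y w * B x y y = 2 * G y * B x w y := by
  obtain ⟨l, hl⟩ := h.lam hx hy e
  have a := hl y
  rw [h.euler hy] at a
  have := h.pos y hy
  refine ⟨fun z => by rw [z] at a; linarith, fun w => ?_⟩
  rw [hl, a]
  ring

theorem Dt.ratio (h : Dt G g B) {x u v : E} (hx : x ≠ 0) (hu : u ≠ 0) (e : g x u = 0)
    (e' : g x v = 0) : G v = G u / B x u u * B x v v := by
  have b := (h.rel hx hu e).1
  by_cases c : ∃ t : ℝ, v = t • u
  · obtain ⟨t, rfl⟩ := c
    simp only [h.hom, map_smul, smul_apply, smul_eq_mul]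
    field_simp
  have n : ∀ t : ℝ, u + t • (v - u) ≠ 0 := fun t z => by
    have t0 : t ≠ 0 := by
      rintro rfl
      exact hu (by simpa using z)
    refine c ⟨t⁻¹ * (t - 1), ?_⟩
    rw [mul_smul, eq_inv_smul_iff₀ t0]
    linear_combination (norm := module) z
  have r := fun t : ℝ => h.rel hx (n t) (by simp [e, e'])
  have d : ∀ t : ℝ, HasDerivAt (fun s : ℝ => G (u + s • (v - u)) /
      B x (u + s • (v - u)) (u + s • (v - u))) 0 t := fun t => by
    have l := line u (v - u) t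
    refine (((h.d1 _ (n t)).comp_hasDerivAt t l).fun_div
      (((B x).hasFDerivAt.comp_hasDerivAt t l).clm_apply l) (r t).1).congr_deriv ?_
    simp only [Function.comp]
    rw [(r t).2, h.sy x hx (u + t • (v - u)) (v - u)]
    ring
  have k := is_const_of_deriv_eq_zero (fun t => (d t).differentiableAt) (fun t => (d t).deriv) 0 1
  have r1 := (r 1).1
  simp only [zero_smul, add_zero, one_smul, add_sub_cancel] at k r1
  rw [k, div_mul_cancel₀ _ r1]

theorem Dt.plane (h : Dt G g B) {x y z : E} (hx : x ≠ 0) (e : g x y = 0) (e' : g x z = 0) :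
    ∃ α β γ : ℝ, ∀ a b : ℝ, G (a • y + b • z) = a ^ 2 * α + a * b * β + b ^ 2 * γ := by
  obtain ⟨m, hm⟩ : ∃ m : ℝ, ∀ a b : ℝ,
      G (a • y + b • z) = m * B x (a • y + b • z) (a • y + b • z) := by
    by_cases hy : y = 0
    · by_cases hz : z = 0
      · exact ⟨0, fun a b => by simpa [hy, hz] using h.hom 0 0⟩
      · exact ⟨_, fun a b => h.ratio hx hz e' (by simp [e, e'])⟩
    · exact ⟨_, fun a b => h.ratio hx hy e (by simp [e, e'])⟩
  refine ⟨m * B x y y, m * (B x y z + B x z y), m * B x z z, fun a b => ?_⟩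
  simp only [hm, map_add, map_smul, add_apply,
    smul_apply, smul_eq_mul]
  ring

theorem quad (h : ∀ y z : E, ∃ α β γ : ℝ, ∀ a b : ℝ,
      G (a • y + b • z) = a ^ 2 * α + a * b * β + b ^ 2 * γ) :
    ∃ Q : LinearMap.BilinForm ℝ E, (∀ y z, Q y z = Q z y) ∧ ∀ y, Q y y = 2 * G y := by
  have k : ∀ y z (a b : ℝ), G (a • y + b • z) =
      a ^ 2 * G y + a * b * (G (y + z) - G y - G z) + b ^ 2 * G z := fun y z a b => by
    obtain ⟨α, β, γ, e⟩ := h y z
    have e1 := e 1 0
    have e2 := e 0 1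
    have e3 := e 1 1
    simp only [one_smul, zero_smul, add_zero, zero_add] at e1 e2 e3
    rw [e, e1, e2, e3]
    ring
  have pa : ∀ y z, G (y + z) + G (y - z) = 2 * G y + 2 * G z := fun y z => by
    have := k y z 1 (-1)
    rw [one_smul, neg_one_smul, ← sub_eq_add_neg] at this
    linarith
  have hm : ∀ (c : ℝ) y, G (c • y) = c ^ 2 * G y := fun c y => by simpa using k y y c 0
  have ad : ∀ y w z, G (y + w + z) - G (y + w) - G z =
      G (y + z) - G y - G z + (G (w + z) - G w - G z) := fun y w z => by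
    have a1 := pa (y + z) w
    have a2 := pa (w + z) y
    have a3 := pa (y - w) z
    have a4 := pa y w
    have a5 := hm (-1) (w + z - y)
    rw [show y + z + w = y + w + z by abel, show y + z - w = y - w + z by abel] at a1
    rw [show w + z + y = y + w + z by abel] at a2
    rw [show (-1 : ℝ) • (w + z - y) = y - w - z by module] at a5
    linarith
  have sm : ∀ (c : ℝ) y z, G (c • y + z) - G (c • y) - G z = c * (G (y + z) - G y - G z) :=
    fun c y z => by
      have := k y z c 1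
      rw [one_smul] at this
      rw [this, hm]
      ring
  refine ⟨LinearMap.mk₂ ℝ (fun y z => G (y + z) - G y - G z) ad sm (fun z y w => ?_)
    fun c z y => ?_, fun y z => ?_, fun y => ?_⟩
  · have := ad y w z
    rw [add_comm z, add_comm z, add_comm z]
    linarith
  · have := sm c y z
    rw [add_comm z, add_comm z, smul_eq_mul]
    linarith
  · simp only [LinearMap.mk₂_apply, add_comm y z]
    ring
  · have := hm 2 y
    rw [two_smul] at this
    rw [LinearMap.mk₂_apply]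
    linarith

end

variable {n : ℕ} {p : Eu n → ℝ}

theorem dt (hp : Nrm p) (hc : ContDiffOn ℝ 2 p {0}ᶜ)
    (hb : ∀ x y, x ≠ 0 → y ≠ 0 → fderiv ℝ p x y = 0 → fderiv ℝ p y x = 0) :
    Dt (fun x => p x ^ 2) (fderiv ℝ fun x => p x ^ 2) (fderiv ℝ (fderiv ℝ fun x => p x ^ 2)) := by
  have c : ∀ x, x ≠ 0 → ContDiffAt ℝ 2 p x := fun x hx =>
    hc.contDiffAt (isOpen_compl_singleton.mem_nhds hx)
  have e : ∀ x, x ≠ 0 → ∀ y, fderiv ℝ (fun x => p x ^ 2) x y = 2 * p x * fderiv ℝ p x y :=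
    fun x hx y => by
      rw [(((c x hx).differentiableAt two_ne_zero).hasFDerivAt.pow 2).fderiv]
      simp
  refine ⟨fun x hx => (((c x hx).pow 2).differentiableAt two_ne_zero).hasFDerivAt,
    fun x hx => ((((c x hx).pow 2).fderiv_right (m := 1) (by norm_num)).differentiableAt
      one_ne_zero).hasFDerivAt, fun x hx => ((c x hx).pow 2).isSymmSndFDerivAt (by simp),
    fun a x => by rw [hp.smul, mul_pow, sq_abs], fun x hx => pow_pos (hp.pos hx) 2,
    fun x y hx hy h => ?_⟩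
  rw [e x hx] at h
  rw [e y hy, hb x y hx hy ((mul_eq_zero.1 h).resolve_left (mul_pos two_pos (hp.pos hx)).ne'),
    mul_zero]

theorem foot (hn : 3 ≤ n) (hp : Nrm p) {g : Eu n → Eu n →L[ℝ] ℝ}
    (hd : ∀ x, x ≠ 0 → HasFDerivAt (fun x => p x ^ 2) (g x) x) (y z : Eu n) :
    ∃ x, x ≠ 0 ∧ g x y = 0 ∧ g x z = 0 := by
  obtain ⟨ξ, h1, h0⟩ := (Submodule.ne_bot_iff _).1 (LinearMap.ker_ne_bot_of_finrank_lt
    (f := (innerₛₗ ℝ y).prod (innerₛₗ ℝ z)) (by simp; omega))
  have hy : ⟪y, ξ⟫ = 0 := congrArg Prod.fst h1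
  have hz : ⟪z, ξ⟫ = 0 := congrArg Prod.snd h1
  obtain ⟨c, c0, hc⟩ := hp.low
  obtain ⟨x, hx, hm⟩ := hp.cont.continuousOn.exists_isMinOn' (s := {x | ⟪x, ξ⟫ = ⟪ξ, ξ⟫})
    (isClosed_eq (by fun_prop) continuous_const) (x₀ := ξ) rfl (Eventually.filter_mono inf_le_left
      ((Tendsto.eventually_ge_atTop tendsto_norm_cocompact_atTop (p ξ / c)).mono fun x hx =>
        le_trans (by rwa [div_le_iff₀' c0] at hx) (hc x)))
  have hx' : ⟪x, ξ⟫ = ⟪ξ, ξ⟫ := hx
  have x0 : x ≠ 0 := by
    rintro rfl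
    exact h0 (inner_self_eq_zero.1 (by rw [← hx', inner_zero_left]))
  have k : ∀ v, ⟪v, ξ⟫ = 0 → g x v = 0 := fun v hv => by
    refine IsLocalMin.hasDerivAt_eq_zero (Eventually.of_forall fun t => ?_)
      ((hd x x0).comp_hasDerivAt_of_eq 0 (line x v 0) (by simp))
    have : p x ≤ p (x + t • v) := hm (show ⟪x + t • v, ξ⟫ = _ by
      rw [inner_add_left, real_inner_smul_left, hv, hx', mul_zero, add_zero])
    simpa using pow_le_pow_left₀ (hp.nonneg x) this 2
  exact ⟨x, x0, k y hy, k z hz⟩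

end Geo

theorem geo : GEO := by
  intro n p hn hp hc hb
  have d := Geo.dt hp hc hb
  obtain ⟨Q, q1, q2⟩ := Geo.quad (G := fun x => p x ^ 2) fun y z => by
    obtain ⟨x, x0, a, b⟩ := Geo.foot hn hp d.d1 y z
    exact d.plane x0 a b
  obtain ⟨T, hT⟩ := Iso.diag ((1 / 2 : ℝ) • Q) (fun y z => by simp [q1 y z]) fun y hy => by
    have := pow_pos (hp.pos hy) 2
    simpa [q2] using this
  refine ⟨ContinuousLinearEquiv.equivOfInverse (tp T.symm) (tp T) (tp_tp_symm T) (tp_symm_tp T),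
    fun x => ?_⟩
  have := hT (tp T.symm x)
  rw [tp_tp_symm] at this
  refine (sq_eq_sq₀ (hp.nonneg x) (norm_nonneg _)).1 (Eq.trans ?_ this)
  simp [q2]

end Pool.Agent.MP_2a44fd_gt.CB
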