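import Pool.Agent.MP_2a44fd_gt.CB.Basic

/-! The integral identities. -/

set_option autoImplicit false

open MeasureTheory Real Set Filter Topology
open scoped RealInnerProductSpace

namespace Pool.Agent.MP_2a44fd_gt.CB

open Pool.Agent.MP_2a44fd_gt.hd

variable {n : ℕ} {p h f f' : Eu n → ℝ} {b : ℝ}

/-- Measurable and of polynomial growth. -/
def Pg (f : Eu n → ℝ) : Prop :=
  Measurable f ∧ ∃ (C : ℝ) (k : ℕ), 0 ≤ C ∧ ∀ x, |f x| ≤ C * (1 + ‖x‖) ^ k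

theorem Pg.int (hf : Pg f) (hp : Nrm p) : Integrable f (mu p) :=
  let ⟨m, C, k, _, e⟩ := hf; hp.int_of_poly m.aestronglyMeasurable C k e

theorem Pg.mul (hf : Pg f) (hg : Pg f') : Pg fun x => f x * f' x := by
  obtain ⟨m, C, k, c, e⟩ := hf
  obtain ⟨m', C', k', c', e'⟩ := hg
  refine ⟨m.mul m', C * C', k + k', by positivity, fun x => ?_⟩
  rw [abs_mul, pow_add, mul_mul_mul_comm]
  exact mul_le_mul (e x) (e' x) (abs_nonneg _) (by positivity)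

theorem Pg.add (hf : Pg f) (hg : Pg f') : Pg fun x => f x + f' x := by
  obtain ⟨m, C, k, c, e⟩ := hf
  obtain ⟨m', C', k', c', e'⟩ := hg
  refine ⟨m.add m', C + C', k + k', by positivity, fun x => (abs_add_le _ _).trans ?_⟩
  have h1 : (1 : ℝ) ≤ 1 + ‖x‖ := by linarith [norm_nonneg x]
  rw [add_mul]
  exact add_le_add ((e x).trans (mul_le_mul_of_nonneg_left (pow_le_pow_right₀ h1 (by omega)) c))
    ((e' x).trans (mul_le_mul_of_nonneg_left (pow_le_pow_right₀ h1 (by omega)) c'))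

theorem Pg.of_bd (m : Measurable f) (C : ℝ) (e : ∀ x, |f x| ≤ C) : Pg f :=
  ⟨m, C, 0, (abs_nonneg _).trans (e 0), fun x => by simpa using e x⟩

theorem Pg.const (c : ℝ) : Pg fun _ : Eu n => c := Pg.of_bd measurable_const |c| fun _ => le_rfl

theorem Pg.of_lin (m : Measurable f) {C : ℝ} (c : 0 ≤ C) (e : ∀ x, |f x| ≤ C * ‖x‖) : Pg f :=
  ⟨m, C, 1, c, fun x => (e x).trans (by rw [pow_one]; nlinarith)⟩

theorem Pg.sub (hf : Pg f) (hg : Pg f') : Pg fun x => f x - f' x := by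
  simpa [sub_eq_add_neg] using hf.add ((Pg.const (-1)).mul hg)

theorem Pg.sq (hf : Pg f) : Pg fun x => f x ^ 2 := by simpa only [pow_two] using hf.mul hf

theorem Pg.abs (hf : Pg f) : Pg fun x => |f x| :=
  let ⟨m, C, k, c, e⟩ := hf; ⟨m.abs, C, k, c, fun x => by simpa using e x⟩

theorem Sm.pg_p (H : Sm p) : Pg p :=
  let ⟨_, c, e, _⟩ := H.bd
  Pg.of_lin H.nrm.meas c.le fun x => by rw [abs_of_nonneg (H.nrm.nonneg x)]; exact e x

theorem Sm.pg_q (H : Sm p) (v : Eu n) : Pg (q p v) :=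
  let ⟨C, _, _, e⟩ := H.bd
  Pg.of_bd (meas_q v) (C * ‖v‖) fun x => (fderiv ℝ p x).le_of_opNorm_le (e x) v

theorem Sm.pg_r (H : Sm p) (v : Eu n) : Pg fun x => p x * r p v x :=
  let ⟨C, e⟩ := H.r_bd v; Pg.of_bd (H.nrm.meas.mul (meas_r v)) C e

theorem Sm.pg_g (H : Sm p) (v : Eu n) : Pg fun x => gL p x v := H.pg_p.mul (H.pg_q v)

theorem pg_inner (ξ : Eu n) : Pg fun x : Eu n => ⟪x, ξ⟫ :=
  Pg.of_lin (by fun_prop) (norm_nonneg ξ) fun x => by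
    rw [mul_comm]; exact abs_real_inner_le_norm x ξ

noncomputable def k (p : Eu n → ℝ) (v x : Eu n) : ℝ := q p v x ^ 2 + p x * r p v x

noncomputable def w (p : Eu n → ℝ) (v x : Eu n) : ℝ := gL p x v ^ 2 - k p v x

theorem Sm.pg_k (H : Sm p) (v : Eu n) : Pg (k p v) := (H.pg_q v).sq.add (H.pg_r v)

theorem Sm.pg_w (H : Sm p) (v : Eu n) : Pg (w p v) := (H.pg_g v).sq.sub (H.pg_k v)

theorem Sm.hask (H : Sm p) (v : Eu n) {x : Eu n} (hx : x ≠ 0) :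
    HasDerivAt (fun t : ℝ => gL p (x + t • v) v) (k p v x) 0 := by
  have h1 : HasDerivAt (fun t : ℝ => q p v (x + t • v)) (r p v x) 0 :=
    (H.hasq v hx).hasLineDerivAt v
  exact ((H.line hx v).mul h1).congr_deriv (by simp [k, sq])

theorem Sm.hask0 (H : Sm p) (v : Eu n) :
    HasDerivAt (fun t : ℝ => gL p (0 + t • v) v) (p v ^ 2) 0 := by
  simp only [zero_add, H.gL_smul, smul_apply, H.gL_self, smul_eq_mul]
  simpa using (hasDerivAt_id (0 : ℝ)).mul_const (p v ^ 2)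

theorem hl {a : ℝ → ℝ} {a' : ℝ} (y x ξ : Eu n) (ha : HasDerivAt a a' ⟪y, ξ⟫) :
    HasDerivAt (fun t : ℝ => a ⟪y + t • x, ξ⟫) (a' * ⟪x, ξ⟫) 0 := by
  have h1 : HasDerivAt (fun t : ℝ => ⟪y + t • x, ξ⟫) ⟪x, ξ⟫ 0 := by
    simp only [inner_add_left, real_inner_smul_left]
    simpa using ((hasDerivAt_id (0 : ℝ)).mul_const ⟪x, ξ⟫).const_add ⟪y, ξ⟫
  exact HasDerivAt.comp_of_eq (0 : ℝ) ha h1 (by simp)

section
variable {a s : ℝ → ℝ} {δ : ℝ}

theorem pg_comp {a a' : ℝ → ℝ} (ha : ∀ t, HasDerivAt a (a' t) t) (ξ : Eu n) :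
    Measurable fun x : Eu n => a ⟪x, ξ⟫ :=
  ((continuous_iff_continuousAt.2 fun t => (ha t).continuousAt).comp
    (by fun_prop : Continuous fun x : Eu n => ⟪x, ξ⟫)).measurable

theorem Sm.idC (H : Sm p) (hn : 0 < n) (hδ : 0 < δ) (hs : ∀ t, HasDerivAt s (2 * gk δ t) t)
    (bs : ∀ t, |s t| ≤ 1) (ξ x : Eu n) :
    ∫ y, s ⟪y, ξ⟫ * gL p y x ∂mu p = 2 * ⟪x, ξ⟫ * A0 p δ ξ := by
  have p1 : Pg fun y : Eu n => s ⟪y, ξ⟫ := Pg.of_bd (pg_comp hs ξ) 1 fun _ => bs _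
  rw [← H.stein hn (f := fun y => s ⟪y, ξ⟫) (f' := fun y => 2 * gk δ ⟪y, ξ⟫ * ⟪x, ξ⟫) x
    (fun y _ => hl y x ξ (hs _))
    ⟨_, hl 0 x ξ (hs _)⟩ (p1.int H.nrm) (((H.nrm.int_gk hδ ξ).const_mul 2).mul_const _)
    ((p1.mul (H.pg_g x)).int H.nrm), integral_mul_const, integral_const_mul, A0]
  ring

theorem Sm.idA (H : Sm p) (hn : 0 < n) (hδ : 0 < δ) (ha : ∀ t, HasDerivAt a (s t) t)
    (hs : ∀ t, HasDerivAt s (2 * gk δ t) t) (ba : ∀ t, |a t| ≤ |t|) (bs : ∀ t, |s t| ≤ 1)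
    (ξ v : Eu n) : ∫ x, a ⟪x, ξ⟫ * w p v x ∂mu p = 2 * ⟪v, ξ⟫ ^ 2 * A0 p δ ξ := by
  have p1 : Pg fun y : Eu n => s ⟪y, ξ⟫ := Pg.of_bd (pg_comp hs ξ) 1 fun _ => bs _
  have p2 : Pg fun y : Eu n => a ⟪y, ξ⟫ := Pg.of_lin (pg_comp ha ξ) (norm_nonneg ξ) fun x =>
    (ba _).trans (by rw [mul_comm]; exact abs_real_inner_le_norm x ξ)
  have i1 := ((p1.mul (H.pg_g v)).mul (Pg.const ⟪v, ξ⟫)).int H.nrm
  have i2 := (p2.mul (H.pg_k v)).int H.nrm
  have i3 := ((p2.mul (H.pg_g v)).mul (H.pg_g v)).int H.nrm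
  have := H.stein hn (f := fun x => a ⟪x, ξ⟫ * gL p x v)
    (f' := fun x => s ⟪x, ξ⟫ * gL p x v * ⟪v, ξ⟫ + a ⟪x, ξ⟫ * k p v x) v
    (fun x hx => ((hl x v ξ (ha _)).mul (H.hask v hx)).congr_deriv (by simp; ring))
    ⟨_, (hl 0 v ξ (ha _)).mul (H.hask0 v)⟩ ((p2.mul (H.pg_g v)).int H.nrm) (i1.add i2) i3
  rw [integral_add i1 i2, integral_mul_const, H.idC hn hδ hs bs] at this
  have e : ∀ x, a ⟪x, ξ⟫ * w p v x = a ⟪x, ξ⟫ * gL p x v * gL p x v - a ⟪x, ξ⟫ * k p v x :=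
    fun x => by unfold w; ring
  simp only [e]
  rw [integral_sub i3 i2, ← this]
  ring

end

theorem Sm.idA' (H : Sm p) (hn : 0 < n) (hS : SMO) (B : BP p h b) {ξ : Eu n} (hξ : ξ ≠ 0)
    (v : Eu n) : ∫ x, |⟪x, ξ⟫| * w p v x ∂mu p = 2 * ⟪v, ξ⟫ ^ 2 * (b / h ξ) := by
  obtain ⟨a, s, h1, h2⟩ := hS
  refine tendsto_nhds_unique (l := 𝓝[>] (0 : ℝ)) (f := fun δ => ∫ x, a δ ⟪x, ξ⟫ * w p v x ∂mu p)
    ?_ (((B.lim ξ hξ).const_mul _).congr' (eventually_mem_nhdsWithin.mono fun δ hδ =>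
      (H.idA hn hδ (fun t => (h1 δ hδ t).1) (fun t => (h1 δ hδ t).2.1)
        (fun t => (h1 δ hδ t).2.2.1) (fun t => (h1 δ hδ t).2.2.2.1) ξ v).symm))
  refine tendsto_integral_filter_of_dominated_convergence (fun x => |⟪x, ξ⟫| * |w p v x|)
    (eventually_mem_nhdsWithin.mono fun δ hδ =>
      ((pg_comp (fun t => (h1 δ hδ t).1) ξ).mul (H.pg_w v).1).aestronglyMeasurable)
    (eventually_mem_nhdsWithin.mono fun δ hδ => Eventually.of_forall fun x => ?_)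
    (((pg_inner ξ).abs.mul (H.pg_w v).abs).int H.nrm)
    (Eventually.of_forall fun x => (h2 _).mul_const _)
  rw [Real.norm_eq_abs, abs_mul]
  exact mul_le_mul_of_nonneg_right (h1 δ hδ _).2.2.1 (abs_nonneg _)

theorem Sm.idB (H : Sm p) (hn : 0 < n) (v : Eu n) :
    ∫ x, p x * w p v x ∂mu p = ∫ x, p x * q p v x ^ 2 ∂mu p := by
  have i1 := (H.pg_p.mul (H.pg_q v).sq).int H.nrm
  have i2 := (H.pg_p.mul (H.pg_k v)).int H.nrm
  have i3 := ((H.pg_p.mul (H.pg_g v)).mul (H.pg_g v)).int H.nrm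
  have h0 : HasDerivAt (fun t : ℝ => p (0 + t • v) * gL p (0 + t • v) v) 0 0 := by
    rw [hasDerivAt_iff_tendsto_slope_zero]
    have c : Continuous fun t : ℝ => |t| * p v * p v ^ 2 := by fun_prop
    have := (c.tendsto 0).mono_left (nhdsWithin_le_nhds (s := {0}ᶜ))
    simp only [abs_zero, zero_mul] at this
    refine this.congr' (eventually_mem_nhdsWithin.mono fun t ht => ?_)
    have ht' : t ≠ 0 := ht
    simp only [zero_add, H.gL_smul, smul_apply, H.gL_self, smul_eq_mul,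
      H.nrm.smul, abs_zero, zero_mul, sub_zero]
    field_simp
  have h1 : ∀ x, x ≠ 0 → HasDerivAt (fun t : ℝ => p (x + t • v) * gL p (x + t • v) v)
      (p x * q p v x ^ 2 + p x * k p v x) 0 := fun x hx =>
    ((H.line hx v).fun_mul (H.hask v hx)).congr_deriv (by
      simp only [zero_smul, add_zero, gL_apply]; ring)
  have := H.stein hn (f := fun x => p x * gL p x v)
    (f' := fun x => p x * q p v x ^ 2 + p x * k p v x) v h1
    ⟨_, h0⟩ ((H.pg_p.mul (H.pg_g v)).int H.nrm) (i1.add i2) i3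
  rw [integral_add i1 i2] at this
  have e : ∀ x, p x * w p v x = p x * gL p x v * gL p x v - p x * k p v x :=
    fun x => by unfold w; ring
  simp only [e]
  rw [integral_sub i3 i2, ← this]
  ring

end Pool.Agent.MP_2a44fd_gt.CB
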