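import Pool.Agent.MP_2a44fd_gt.CB.Spec

/-! The radial identity for functions that are homogeneous of degree one. -/

set_option autoImplicit false

open MeasureTheory Real Set Filter Topology

namespace Pool.Agent.MP_2a44fd_gt.CB

open Pool.Agent.MP_2a44fd_gt.hd

theorem rad : RAD := by
  intro n p E C hp hE hh hb
  obtain ⟨B, hB, hB'⟩ := hp.upper
  have hm := hp.meas
  have hC : ∀ x, |E x| ≤ |C| * (1 + ‖x‖) := fun x => (hb x).trans
    (mul_le_mul (le_abs_self C) (by linarith) (norm_nonneg _) (abs_nonneg _))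
  have i1 : Integrable E (mu p) :=
    hp.int_of_poly hE.aestronglyMeasurable |C| 1 fun x => by rw [pow_one]; exact hC x
  have i2 : Integrable (fun x => 3 * |E x * p x ^ 2|) (mu p) := by
    refine (hp.int_of_poly (f := fun x => E x * p x ^ 2) (Measurable.aestronglyMeasurable
      (by fun_prop)) (|C| * B ^ 2) 3 fun x => ?_).abs.const_mul 3
    have h1 : p x ^ 2 ≤ (B * (1 + ‖x‖)) ^ 2 := pow_le_pow_left₀ (hp.nonneg x)
      ((hB' x).trans (mul_le_mul_of_nonneg_left (by linarith) hB.le)) 2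
    rw [abs_mul, abs_of_nonneg (sq_nonneg (p x))]
    calc _ ≤ |C| * (1 + ‖x‖) * (B * (1 + ‖x‖)) ^ 2 :=
          mul_le_mul (hC x) h1 (sq_nonneg _) (by positivity)
      _ = _ := by ring
  have h1 := (hasDerivAt_integral_of_dominated_loc_of_deriv_le (μ := mu p)
    (F := fun (c : ℝ) x => exp ((1 - c ^ 2) * p x ^ 2 / 2) * E x)
    (F' := fun (c : ℝ) x => exp ((1 - c ^ 2) * p x ^ 2 / 2) * (-c * (E x * p x ^ 2)))
    (x₀ := 2) (s := Ioo 1 3) (Ioo_mem_nhds (by norm_num) (by norm_num))
    (Eventually.of_forall fun c => Measurable.aestronglyMeasurable (by fun_prop))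
    ((hp.integrable_scale two_pos E).2 (by
      simp only [hh _ (inv_pos.2 two_pos)]
      exact i1.const_mul _))
    (Measurable.aestronglyMeasurable (by fun_prop))
    (Eventually.of_forall fun x c hc => by
      have a : exp ((1 - c ^ 2) * p x ^ 2 / 2) ≤ 1 := exp_le_one_iff.2 (by
        have : 1 - c ^ 2 ≤ 0 := by nlinarith [hc.1]
        have := mul_nonpos_of_nonpos_of_nonneg this (sq_nonneg (p x))
        linarith)
      rw [Real.norm_eq_abs, abs_mul, abs_of_pos (exp_pos _), abs_mul, abs_neg,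
        abs_of_pos (by linarith [hc.1] : 0 < c)]
      refine (mul_le_of_le_one_left (mul_nonneg (by linarith [hc.1]) (abs_nonneg _)) a).trans ?_
      exact mul_le_mul_of_nonneg_right hc.2.le (abs_nonneg _))
    i2 (Eventually.of_forall fun x c _ => by
      have a := (((((hasDerivAt_pow 2 c).const_sub 1).mul_const (p x ^ 2)).div_const 2).exp).mul_const
        (E x)
      refine a.congr_deriv ?_
      simp only [Nat.cast_ofNat, Nat.add_one_sub_one, pow_one]
      ring)).2
  have h2 : HasDerivAt (fun c : ℝ => (c ^ (n + 1))⁻¹ * ∫ x, E x ∂mu p)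
      (-(((n + 1 : ℕ) : ℝ) * 2 ^ n) / (2 ^ (n + 1)) ^ 2 * ∫ x, E x ∂mu p) 2 :=
    ((hasDerivAt_pow (n + 1) (2 : ℝ)).inv (by positivity)).mul_const _
  have h3 := h1.unique (h2.congr_of_eventuallyEq (by
    filter_upwards [Ioi_mem_nhds (two_pos (α := ℝ))] with c hc
    rw [hp.integral_scale hc E]
    simp only [hh _ (inv_pos.2 (show (0 : ℝ) < c from hc))]
    rw [integral_const_mul, pow_succ, mul_inv, mul_assoc]))
  rw [hp.integral_scale two_pos fun x => -2 * (E x * p x ^ 2)] at h3
  have e : ∀ x, -2 * (E ((2 : ℝ)⁻¹ • x) * p ((2 : ℝ)⁻¹ • x) ^ 2) =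
      -(1 / 4) * (E x * p x ^ 2) := fun x => by
    rw [hh _ (inv_pos.2 two_pos), hp.smul_nonneg (inv_pos.2 two_pos).le]
    ring
  simp only [e, integral_const_mul] at h3
  have : (2 : ℝ) ^ n ≠ 0 := by positivity
  push_cast at h3
  rw [pow_succ (2 : ℝ) n] at h3
  field_simp at h3
  linarith

end Pool.Agent.MP_2a44fd_gt.CB
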