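import Pool.Agent.MP_2a44fd_gt.CB.Spec

/-! Smooth approximations of the absolute value and of the sign. -/

set_option autoImplicit false

open MeasureTheory Real Set Filter Topology

namespace Pool.Agent.MP_2a44fd_gt.CB

open Pool.Agent.MP_2a44fd_gt.hd

namespace Smo

noncomputable def s (δ t : ℝ) : ℝ := ∫ u in (0 : ℝ)..t, 2 * gk δ u

noncomputable def a (δ t : ℝ) : ℝ := ∫ u in (0 : ℝ)..t, s δ u

variable {δ t : ℝ}

theorem ds (δ t : ℝ) : HasDerivAt (s δ) (2 * gk δ t) t :=
  (Continuous.integral_hasStrictDerivAt (f := fun u => 2 * gk δ u) (by fun_prop) 0 t).hasDerivAt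

theorem cs (δ : ℝ) : Continuous (s δ) :=
  continuous_iff_continuousAt.2 fun t => (ds δ t).continuousAt

theorem da (δ t : ℝ) : HasDerivAt (a δ) (s δ t) t :=
  ((cs δ).integral_hasStrictDerivAt 0 t).hasDerivAt

theorem half (hδ : 0 < δ) : ∫ u in Ioi (0 : ℝ), 2 * gk δ u = 1 := by
  rw [integral_const_mul, ← integral_comp_abs, ← integral_gk hδ]
  refine integral_congr_ae (Eventually.of_forall fun u => ?_)
  rcases abs_choice u with h | h <;> simp only [h, gk_neg]

theorem s_neg (δ t : ℝ) : s δ (-t) = -s δ t := by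
  have := intervalIntegral.integral_comp_neg (a := 0) (b := t) fun u => 2 * gk δ u
  simp only [gk_neg, neg_zero] at this
  rw [s, s, this, intervalIntegral.integral_symm]

theorem s_nonneg (hδ : 0 < δ) (ht : 0 ≤ t) : 0 ≤ s δ t :=
  intervalIntegral.integral_nonneg ht fun u _ => by have := gk_pos hδ u; positivity

theorem s_le (hδ : 0 < δ) (ht : 0 ≤ t) : s δ t ≤ 1 := by
  rw [← half hδ, s, intervalIntegral.integral_of_le ht]
  exact setIntegral_mono_set ((gk_int hδ).const_mul 2).integrableOn
    (Eventually.of_forall fun u => by have := gk_pos hδ u; positivity)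
    Ioc_subset_Ioi_self.eventuallyLE

theorem s_abs (hδ : 0 < δ) (t : ℝ) : |s δ t| ≤ 1 := by
  rcases le_total 0 t with h | h
  · rw [abs_of_nonneg (s_nonneg hδ h)]; exact s_le hδ h
  · rw [← abs_neg, ← s_neg, abs_of_nonneg (s_nonneg hδ (neg_nonneg.2 h))]
    exact s_le hδ (neg_nonneg.2 h)

theorem s_scale (hδ : 0 < δ) (t : ℝ) : s δ t = s 1 (t / δ) := by
  have := intervalIntegral.integral_comp_mul_left (a := 0) (b := t / δ) (fun u => 2 * gk δ u) hδ.ne'
  simp only [gk_scale hδ, div_self hδ.ne', mul_zero, mul_div_cancel₀ _ hδ.ne', smul_eq_mul,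
    mul_left_comm (2 : ℝ), intervalIntegral.integral_const_mul δ⁻¹] at this
  exact (mul_left_cancel₀ (inv_ne_zero hδ.ne') this).symm

theorem s_lim (ht : 0 < t) : Tendsto (fun δ => s δ t) (𝓝[>] 0) (𝓝 1) := by
  have h := intervalIntegral_tendsto_integral_Ioi 0 ((gk_int one_pos).const_mul 2).integrableOn
    (tendsto_inv_nhdsGT_zero.const_mul_atTop ht)
  rw [half one_pos] at h
  refine h.congr' (eventually_nhdsWithin_of_forall fun δ hδ => ?_)
  exact (s_scale hδ t).symm

theorem a_neg (δ t : ℝ) : a δ (-t) = a δ t := by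
  have := intervalIntegral.integral_comp_neg (a := 0) (b := t) (s δ)
  simp only [s_neg, neg_zero, intervalIntegral.integral_neg] at this
  rw [a, a, intervalIntegral.integral_symm, ← this, neg_neg]

theorem a_lim (ht : 0 ≤ t) : Tendsto (fun δ => a δ t) (𝓝[>] 0) (𝓝 t) := by
  have := intervalIntegral.tendsto_integral_filter_of_dominated_convergence (μ := volume) (a := 0)
    (b := t) (l := 𝓝[>] (0 : ℝ)) (F := s) (f := fun _ => (1 : ℝ)) (fun _ => 1)
    (Eventually.of_forall fun δ => (cs δ).aestronglyMeasurable)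
    (eventually_nhdsWithin_of_forall fun δ hδ => Eventually.of_forall fun u _ => s_abs hδ u)
    intervalIntegrable_const
    (Eventually.of_forall fun u hu => s_lim (by rw [uIoc_of_le ht] at hu; exact hu.1))
  simpa [a] using this

end Smo

open Smo in
theorem smo : SMO := by
  refine ⟨a, s, fun δ hδ t => ⟨da δ t, ds δ t, ?_, s_abs hδ t, s_nonneg hδ⟩, fun t => ?_⟩
  · simpa [a] using intervalIntegral.norm_integral_le_of_norm_le_const (a := 0) (b := t) (C := 1)
      (f := s δ) fun u _ => s_abs hδ u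
  · rcases le_total 0 t with h | h
    · rw [abs_of_nonneg h]; exact a_lim h
    · rw [abs_of_nonpos h]
      simpa only [a_neg] using a_lim (neg_nonneg.2 h)

end Pool.Agent.MP_2a44fd_gt.CB
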