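import Pool.Agent.MP_2a44fd_gt.CB.Int
import Pool.Agent.MP_2a44fd_gt.CB.Geo
import Pool.Agent.MP_2a44fd_gt.CB.Dual
import Pool.Agent.MP_2a44fd_gt.CB.Smo
import Pool.Agent.MP_2a44fd_gt.CB.Rad

/-! Projection minus section is nonnegative and is annihilated by a positive weight. -/

set_option autoImplicit false

open MeasureTheory Real Set Filter Topology
open scoped RealInnerProductSpace

namespace Pool.Agent.MP_2a44fd_gt.CB

open Pool.Agent.MP_2a44fd_gt.hd

variable {n : ℕ} {p h : Eu n → ℝ} {b : ℝ}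

noncomputable def P (p : Eu n → ℝ) (x : Eu n) : ℝ := ∫ y, |gL p y x| ∂mu p

noncomputable def D (p : Eu n → ℝ) (b : ℝ) (x : Eu n) : ℝ := P p x - 2 * b * p x

theorem Sm.grad (H : Sm p) (B : BP p h b) {x : Eu n} (hx : x ≠ 0) :
    ∃ ξ : Eu n, ξ ≠ 0 ∧ (∀ z, ⟪z, ξ⟫ = q p z x) ∧ h ξ = 1 := by
  have e : ∀ z, ⟪z, (InnerProductSpace.toDual ℝ (Eu n)).symm (fderiv ℝ p x)⟫ = q p z x :=
    fun z => by rw [real_inner_comm, InnerProductSpace.toDual_symm_apply]; rfl
  have h1 := dual n p h b B x _ hx (fun z => (e z).trans_le (H.q_le hx z))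
    ((e x).trans (H.euler hx))
  refine ⟨_, fun h0 => ?_, e, h1⟩
  rw [h0, B.h_zero] at h1
  exact zero_ne_one h1

theorem Sm.D_ge (H : Sm p) (hn : 0 < n) (B : BP p h b) {x ξ : Eu n} (hx : x ≠ 0) (h0 : ξ ≠ 0)
    (h1 : ∀ z, ⟪z, ξ⟫ = q p z x) (h2 : h ξ = 1) :
    ∫ y, max 0 (min (-gL p y x) ⟪y, ξ⟫) ∂mu p ≤ D p b x := by
  obtain ⟨a, s, hs, -⟩ := smo
  have i1 := (H.pg_g x).abs.int H.nrm
  have c := H.gL_cont
  have i2 : Integrable (fun y => max 0 (min (-gL p y x) ⟪y, ξ⟫)) (mu p) :=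
    i1.mono' (Continuous.aestronglyMeasurable (by fun_prop)) (Eventually.of_forall fun y => by
      rw [Real.norm_of_nonneg (le_max_left _ _)]
      exact max_le (abs_nonneg _) ((min_le_left _ _).trans (neg_le_abs _)))
  have t := (B.lim ξ h0).const_mul (2 * ⟪x, ξ⟫)
  have := le_of_tendsto t (b := P p x - ∫ y, max 0 (min (-gL p y x) ⟪y, ξ⟫) ∂mu p)
    (eventually_mem_nhdsWithin.mono fun δ hδ => ?_)
  · rw [h1, H.euler hx, h2] at this
    unfold D
    linarith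
  have k1 := fun t => (hs δ hδ t).2.1
  have k2 := fun t => (hs δ hδ t).2.2.2.1
  rw [← H.idC hn hδ k1 k2, P, ← integral_sub i1 i2]
  refine integral_mono (((Pg.of_bd (pg_comp k1 ξ) 1 fun _ => k2 _).mul (H.pg_g x)).int H.nrm)
    (i1.sub i2) fun y => ?_
  have k3 := (hs δ hδ ⟪y, ξ⟫).2.2.2.2
  have k4 : s δ ⟪y, ξ⟫ * gL p y x ≤ |gL p y x| := (le_abs_self _).trans (by
    rw [abs_mul]; exact mul_le_of_le_one_left (abs_nonneg _) (k2 _))
  beta_reduce
  rcases le_total (min (-gL p y x) ⟪y, ξ⟫) 0 with k | k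
  · rw [max_eq_left k]; linarith
  · rw [max_eq_right k]
    have k5 := k.trans (min_le_left _ _)
    have k6 := mul_nonneg (k3 (k.trans (min_le_right _ _))) k5
    have k7 := min_le_left (-gL p y x) ⟪y, ξ⟫
    have k8 := neg_le_abs (gL p y x)
    linarith

theorem Sm.D_zero (H : Sm p) : D p b 0 = 0 := by simp [D, P, H.nrm.zero]

theorem Sm.D_nonneg (H : Sm p) (hn : 0 < n) (B : BP p h b) (x : Eu n) : 0 ≤ D p b x := by
  rcases eq_or_ne x 0 with rfl | hx
  · rw [H.D_zero]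
  obtain ⟨ξ, h0, h1, h2⟩ := H.grad B hx
  exact (integral_nonneg fun y => le_max_left _ _).trans (H.D_ge hn B hx h0 h1 h2)

theorem Sm.sym (H : Sm p) (hn : 0 < n) (B : BP p h b) {x y : Eu n} (hx : x ≠ 0)
    (hD : D p b x = 0) (hy : q p y x = 0) : gL p y x = 0 := by
  obtain ⟨ξ, h0, h1, h2⟩ := H.grad B hx
  have c := H.gL_cont
  have cf : Continuous fun y => max 0 (min (-gL p y x) ⟪y, ξ⟫) := by fun_prop
  have i2 : Integrable (fun y => max 0 (min (-gL p y x) ⟪y, ξ⟫)) (mu p) :=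
    ((H.pg_g x).abs.int H.nrm).mono' cf.aestronglyMeasurable (Eventually.of_forall fun y => by
      rw [Real.norm_of_nonneg (le_max_left _ _)]
      exact max_le (abs_nonneg _) ((min_le_left _ _).trans (neg_le_abs _)))
  have e := (integral_eq_zero_iff_of_nonneg (fun y => le_max_left _ _) i2).1
    (le_antisymm ((H.D_ge hn B hx h0 h1 h2).trans hD.le) (integral_nonneg fun y => le_max_left _ _))
  have e2 := (cf.ae_eq_iff_eq volume continuous_const).1 (H.nrm.ac_mu.ae_eq e)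
  have key : ∀ y, q p y x = 0 → 0 ≤ gL p y x := fun y hy => by
    have ct : Continuous fun t : ℝ => gL p (y + t • x) x := by fun_prop
    have := (ct.tendsto 0).mono_left (nhdsWithin_le_nhds (s := Ioi 0))
    simp only [zero_smul, add_zero] at this
    refine ge_of_tendsto this (eventually_mem_nhdsWithin.mono fun t ht => ?_)
    have k1 : 0 < ⟪y + t • x, ξ⟫ := by
      rw [inner_add_left, real_inner_smul_left, h1, h1, hy, H.euler hx, zero_add]
      exact mul_pos ht (H.nrm.pos hx)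
    have k2 : min (-gL p (y + t • x) x) ⟪y + t • x, ξ⟫ ≤ 0 :=
      (le_max_right _ _).trans (congrFun e2 (y + t • x)).le
    rcases min_le_iff.1 k2 with k | k <;> linarith
  have k1 := key (-y) (by rw [← h1, inner_neg_left, h1, hy, neg_zero])
  rw [← neg_one_smul ℝ y, H.gL_smul, smul_apply, smul_eq_mul] at k1
  linarith [key y hy]

theorem Sm.g_bd (H : Sm p) : ∃ C : ℝ, 0 < C ∧ ∀ x y, |gL p y x| ≤ C * ‖x‖ * p y := by
  obtain ⟨C, c, -, e⟩ := H.bd
  refine ⟨C, c, fun x y => ?_⟩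
  rw [gL_apply, abs_mul, abs_of_nonneg (H.nrm.nonneg y), mul_comm]
  exact mul_le_mul_of_nonneg_right ((fderiv ℝ p y).le_of_opNorm_le (e y) x) (H.nrm.nonneg y)

theorem Sm.P_bd (H : Sm p) : ∃ C : ℝ, 0 ≤ C ∧ ∀ x, P p x ≤ C * ‖x‖ := by
  obtain ⟨C, c, e⟩ := H.g_bd
  refine ⟨C * ∫ y, p y ∂mu p, mul_nonneg c.le (integral_nonneg H.nrm.nonneg), fun x => ?_⟩
  rw [mul_right_comm, ← integral_const_mul]
  exact integral_mono ((H.pg_g x).abs.int H.nrm) ((H.pg_p.int H.nrm).const_mul _) (e x)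

theorem Sm.P_cont (H : Sm p) : Continuous (P p) := by
  obtain ⟨C, c, e⟩ := H.P_bd
  refine (LipschitzWith.of_le_add_mul ⟨C, c⟩ fun x y => ?_).continuous
  have i := fun x => (H.pg_g x).abs.int H.nrm
  rw [dist_eq_norm]
  refine le_trans ?_ (add_le_add le_rfl (e (x - y)))
  rw [P, P, P, ← integral_add (i _) (i _)]
  refine integral_mono (i _) ((i _).add (i _)) fun z => ?_
  have := abs_add_le (gL p z y) (gL p z (x - y))
  rwa [← map_add, add_sub_cancel] at this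

theorem Sm.D_cont (H : Sm p) : Continuous (D p b) :=
  H.P_cont.sub (continuous_const.mul H.nrm.cont)

theorem Sm.D_bd (H : Sm p) : ∃ C : ℝ, 0 ≤ C ∧ ∀ x, |D p b x| ≤ C * ‖x‖ := by
  obtain ⟨C, c, e⟩ := H.P_bd
  obtain ⟨C', c', e', -⟩ := H.bd
  refine ⟨C + |2 * b| * C', by positivity, fun x => (abs_sub _ _).trans ?_⟩
  rw [abs_of_nonneg (show 0 ≤ P p x from integral_nonneg fun _ => abs_nonneg _), abs_mul,
    abs_of_nonneg (H.nrm.nonneg x), add_mul, mul_assoc]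
  exact add_le_add (e x) (mul_le_mul_of_nonneg_left (e' x) (abs_nonneg _))

theorem Sm.D_smul (H : Sm p) {c : ℝ} (hc : 0 < c) (x : Eu n) : D p b (c • x) = c * D p b x := by
  simp only [D, P, map_smul, smul_eq_mul, abs_mul, abs_of_pos hc, integral_const_mul,
    H.nrm.smul_nonneg hc.le]
  ring

theorem Sm.idP (H : Sm p) (hn : 0 < n) (B : BP p h b) (v : Eu n) :
    ∫ x, P p x * w p v x ∂mu p = 2 * b * ∫ y, p y * q p v y ^ 2 ∂mu p := by
  obtain ⟨C, c, e⟩ := H.g_bd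
  have := H.nrm.prob
  have cg := H.gL_cont
  have pn : Pg fun x : Eu n => C * ‖x‖ := Pg.of_lin (by fun_prop) c.le fun x =>
    (abs_of_nonneg (by positivity)).le
  have i : Integrable (Function.uncurry fun x y => |gL p y x| * w p v x) ((mu p).prod (mu p)) := by
    refine (((pn.mul (H.pg_w v).abs).int H.nrm).mul_prod (H.pg_p.int H.nrm)).mono'
      (Measurable.aestronglyMeasurable ((Continuous.measurable
        (f := fun z : Eu n × Eu n => |gL p z.2 z.1|) (by fun_prop)).mul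
          ((H.pg_w v).1.comp measurable_fst))) (Eventually.of_forall fun z => ?_)
    change ‖|gL p z.2 z.1| * w p v z.1‖ ≤ _
    rw [Real.norm_eq_abs, abs_mul, abs_abs, mul_right_comm]
    exact mul_le_mul_of_nonneg_right (e _ _) (abs_nonneg _)
  simp only [P, ← integral_mul_const]
  rw [integral_integral_swap i, ← integral_const_mul]
  refine integral_congr_ae (Eventually.of_forall fun y => ?_)
  rcases eq_or_ne y 0 with rfl | hy
  · simp [gL, H.nrm.zero]
  obtain ⟨ξ, h0, h1, h2⟩ := H.grad B hy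
  simp only [gL_apply, abs_mul, abs_of_nonneg (H.nrm.nonneg y), mul_assoc, integral_const_mul,
    ← h1]
  rw [H.idA' hn smo B h0, h2]
  ring

theorem Sm.idD (H : Sm p) (hn : 0 < n) (B : BP p h b) (v : Eu n) :
    ∫ x, D p b x * (n * q p v x ^ 2 - p x * r p v x) ∂mu p = 0 := by
  obtain ⟨C, c, e⟩ := H.D_bd (b := b)
  obtain ⟨C', c', -, e'⟩ := H.bd
  obtain ⟨C0, c0, e0⟩ := H.P_bd
  have pD : Pg (D p b) := Pg.of_lin H.D_cont.measurable c e
  have pP : Pg (P p) := Pg.of_lin H.P_cont.measurable c0 fun x => by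
    rw [abs_of_nonneg (show 0 ≤ P p x from integral_nonneg fun _ => abs_nonneg _)]; exact e0 x
  have pE := pD.mul (H.pg_q v).sq
  have h1 : ∫ x, D p b x * w p v x ∂mu p = 0 := by
    have : ∀ x, D p b x * w p v x = P p x * w p v x - 2 * b * (p x * w p v x) :=
      fun x => by unfold D; ring
    simp only [this]
    rw [integral_sub ((pP.mul (H.pg_w v)).int H.nrm)
      (((H.pg_p.mul (H.pg_w v)).int H.nrm).const_mul _), integral_const_mul, H.idP hn B,
      H.idB hn, sub_self]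
  have h2 := rad n p (fun x => D p b x * q p v x ^ 2) (C * (C' * ‖v‖) ^ 2) H.nrm pE.1
    (fun c hc x => by simp only [H.D_smul hc, H.q_smul hc, mul_assoc]) fun x => by
      rw [abs_mul, abs_pow, mul_right_comm]
      exact mul_le_mul (e x) (pow_le_pow_left₀ (abs_nonneg _)
        ((fderiv ℝ p x).le_of_opNorm_le (e' x) v) 2) (by positivity) (by positivity)
  have : ∀ x, D p b x * (n * q p v x ^ 2 - p x * r p v x) = D p b x * w p v x +
      ((n + 1) * (D p b x * q p v x ^ 2) - D p b x * q p v x ^ 2 * p x ^ 2) :=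
    fun x => by unfold w k; rw [gL_apply]; ring
  simp only [this]
  have i1 := (pE.int H.nrm).const_mul ((n : ℝ) + 1)
  have i2 := (pE.mul H.pg_p.sq).int H.nrm
  rw [integral_add ((pD.mul (H.pg_w v)).int H.nrm) (i1.sub' i2), integral_sub i1 i2,
    integral_const_mul, h1, h2]
  ring

theorem main (hn : 3 ≤ n) (B : BP p h b) (hc : ContDiffOn ℝ 2 p {0}ᶜ) {m : ℕ} (v : Fin m → Eu n)
    (hv : ∀ x, x ≠ 0 → p x * ∑ i, r p (v i) x < n * ∑ i, q p (v i) x ^ 2) :
    ∃ T : Eu n ≃L[ℝ] Eu n, ∀ x, p x = ‖T x‖ := by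
  have H : Sm p := ⟨B.nrm, hc⟩
  have hn0 : 0 < n := by omega
  have : Nonempty (Fin n) := ⟨⟨0, hn0⟩⟩
  obtain ⟨C, c, e⟩ := H.D_bd (b := b)
  have pD : Pg (D p b) := Pg.of_lin H.D_cont.measurable c e
  have i : ∀ i ∈ Finset.univ, Integrable
      (fun x => D p b x * (n * q p (v i) x ^ 2 - p x * r p (v i) x)) (mu p) := fun i _ =>
    (pD.mul (((Pg.const _).mul (H.pg_q _).sq).sub (H.pg_r _))).int H.nrm
  have pos : ∀ x, x ≠ 0 → 0 < ∑ i, (n * q p (v i) x ^ 2 - p x * r p (v i) x) := fun x hx => by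
    rw [Finset.sum_sub_distrib, ← Finset.mul_sum, ← Finset.mul_sum]
    exact sub_pos.2 (hv x hx)
  have h1 : ∫ x, ∑ i, D p b x * (n * q p (v i) x ^ 2 - p x * r p (v i) x) ∂mu p = 0 := by
    rw [integral_finsetSum _ i]
    exact Finset.sum_eq_zero fun i _ => H.idD hn0 B _
  have h2 := H.nrm.ac_mu.ae_eq ((integral_eq_zero_iff_of_nonneg (fun x => by
    rcases eq_or_ne x 0 with rfl | hx
    · simp [H.D_zero]
    · rw [← Finset.mul_sum]
      exact mul_nonneg (H.D_nonneg hn0 B x) (pos x hx).le) (integrable_finsetSum _ i)).1 h1)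
  have h3 : D p b = fun _ => 0 := (H.D_cont.ae_eq_iff_eq volume continuous_const).1 (by
    filter_upwards [h2, compl_mem_ae_iff.2 (measure_singleton (0 : Eu n))] with x hx h0
    rw [← Finset.mul_sum] at hx
    exact (mul_eq_zero.1 hx).resolve_right (pos x h0).ne')
  refine geo n p hn B.nrm hc fun x y hx hy k => ?_
  exact (mul_eq_zero.1 (H.sym hn0 B hx (congrFun h3 x) k)).resolve_left (H.nrm.pos hy).ne'

theorem le_of_ball {p p' : Eu n → ℝ} (hp : Nrm p) (hp' : Nrm p')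
    (e : ∀ x, p x ≤ 1 → p' x ≤ 1) (x : Eu n) : p' x ≤ p x := by
  rcases eq_or_ne x 0 with rfl | hx
  · rw [hp.zero, hp'.zero]
  have a := hp.pos hx
  have := e ((p x)⁻¹ • x) (by rw [hp.smul_nonneg (inv_pos.2 a).le, inv_mul_cancel₀ a.ne'])
  rwa [hp'.smul_nonneg (inv_pos.2 a).le, inv_mul_le_iff₀ a, mul_one] at this

theorem final (hn : 3 ≤ n) {K : Set (Eu n)} (h1 : IsCompact K) (h2 : Convex ℝ K)
    (h3 : (interior K).Nonempty) (h4 : ∀ x ∈ K, -x ∈ K) (hc : ContDiffOn ℝ 2 (gauge K) {0}ᶜ)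
    {m : ℕ} (v : Fin m → Eu n) (hv : ∀ x, x ≠ 0 →
      gauge K x * ∑ i, r (gauge K) (v i) x < n * ∑ i, q (gauge K) (v i) x ^ 2)
    (hK : ∃ (p h : Eu n → ℝ) (b : ℝ), BP p h b ∧ K = {x | p x ≤ 1}) :
    ∃ A : Eu n ≃ₗ[ℝ] Eu n, K = A '' Metric.closedBall (0 : Eu n) 1 := by
  obtain ⟨p, h, b, B, e⟩ := hK
  obtain ⟨g, e'⟩ := Bridge.gauge_nrm h1 h2 h3 h4
  have e2 := Set.ext_iff.1 (e.symm.trans e')
  have : gauge K = p := funext fun x => le_antisymm (le_of_ball B.nrm g (fun y => (e2 y).1) x)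
    (le_of_ball g B.nrm (fun y => (e2 y).2) x)
  rw [this] at hc hv
  obtain ⟨T, hT⟩ := main hn B hc v hv
  refine ⟨T.symm.toLinearEquiv, ?_⟩
  rw [e]
  ext x
  simp only [mem_ofPred_eq, hT, mem_image, mem_closedBall_zero_iff]
  exact ⟨fun hx => ⟨T x, hx, by simp⟩, fun ⟨y, hy, e⟩ => by simpa [← e] using hy⟩

end Pool.Agent.MP_2a44fd_gt.CB
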