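import Mathlib
import Pool.Agent.MP_2a44fd_gt.hd.All

/-! The fifth Busemann-Petty problem under a one-sided curvature bound: statements of the steps. -/

set_option autoImplicit false

open MeasureTheory Real Set Filter Topology
open scoped RealInnerProductSpace

namespace Pool.Agent.MP_2a44fd_gt.CB

open Pool.Agent.MP_2a44fd_gt.hd

/-- A `C²` norm with symmetric Birkhoff orthogonality in dimension at least three is Euclidean. -/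
def GEO : Prop := ∀ (n : ℕ) (p : Eu n → ℝ), 3 ≤ n → Nrm p → ContDiffOn ℝ 2 p {0}ᶜ →
  (∀ x y, x ≠ 0 → y ≠ 0 → fderiv ℝ p x y = 0 → fderiv ℝ p y x = 0) →
    ∃ T : Eu n ≃L[ℝ] Eu n, ∀ x, p x = ‖T x‖

/-- `h` is the dual norm of `p`. -/
def DUAL : Prop := ∀ (n : ℕ) (p h : Eu n → ℝ) (b : ℝ), BP p h b → ∀ x ξ : Eu n, x ≠ 0 →
  (∀ z, ⟪z, ξ⟫ ≤ p z) → ⟪x, ξ⟫ = p x → h ξ = 1

/-- Smooth approximations of the absolute value and of the sign. -/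
def SMO : Prop := ∃ a s : ℝ → ℝ → ℝ,
  (∀ δ, 0 < δ → ∀ t, HasDerivAt (a δ) (s δ t) t ∧ HasDerivAt (s δ) (2 * gk δ t) t ∧
    |a δ t| ≤ |t| ∧ |s δ t| ≤ 1 ∧ (0 ≤ t → 0 ≤ s δ t)) ∧
  ∀ t, Tendsto (fun δ => a δ t) (𝓝[>] 0) (𝓝 |t|)

/-- The radial identity for functions that are homogeneous of degree one. -/
def RAD : Prop := ∀ (n : ℕ) (p E : Eu n → ℝ) (C : ℝ), Nrm p → Measurable E →
  (∀ c : ℝ, 0 < c → ∀ x, E (c • x) = c * E x) → (∀ x, |E x| ≤ C * ‖x‖) →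
    ∫ x, E x * p x ^ 2 ∂mu p = (n + 1) * ∫ x, E x ∂mu p

end Pool.Agent.MP_2a44fd_gt.CB
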